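import Pool.Agent.H624R4.FStmts
import Pool.Agent.H880R3.CP.TaskSPEC

open MeasureTheory Metric Real

namespace Pool.Agent.H624R4

open Pool.Agent.H624R3.CP

lemma pn_top {d : ℕ} (x : E d) : pn (⊤ : Submodule ℝ (E d)) x = ‖x‖ := by
  unfold pn
  rw [Submodule.starProjection_top]
  rfl

theorem dual_bound (hP1 : TaskP1) (hP2 : TaskP2) (d : ℕ) (M : Matrix (Fin d) (Fin d) ℝ)
    (hM : M.det ≠ 0) (α : Fin d → ℝ) (hα : ∀ i, 0 < α i) (x0 : E d)
    (hx0 : ∀ z : Fin d → ℤ, 1 ≤ ‖x0 - dp M z‖) (w : ℝ) (hw0 : 0 < w)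
    (hw : ∀ u : Fin d → ℤ, u ≠ 0 → ∃ i, w ≤ α i * |(lp M u) i|) :
    4 * w ^ 2 ≤ ∑ i, α i ^ 2 := by
  by_contra hcon
  rw [not_le] at hcon
  -- choose ε
  set s : ℝ := ∑ i, α i ^ 2 with hs
  have hpi : 0 < π ^ 2 := by positivity
  have hw2 : 0 < w ^ 2 := by positivity
  obtain ⟨ε, hε, hεs⟩ : ∃ ε : ℝ, 0 < ε ∧ π ^ 2 * s / w ^ 2 + d * ε < 4 * π ^ 2 := by
    have h1 : π ^ 2 * s / w ^ 2 < 4 * π ^ 2 := by
      rw [div_lt_iff₀ hw2]
      nlinarith
    set δ : ℝ := 4 * π ^ 2 - π ^ 2 * s / w ^ 2 with hδ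
    have hδ0 : 0 < δ := by rw [hδ]; linarith
    refine ⟨δ / (d + 1), by positivity, ?_⟩
    have h2 : (d : ℝ) * (δ / (d + 1)) < δ := by
      have h3 : (0 : ℝ) < (d : ℝ) + 1 := by positivity
      rw [mul_div_assoc', div_lt_iff₀ h3]
      nlinarith
    linarith
  have hb : ∀ i, 0 < w / (2 * α i) := fun i => by
    have := hα i
    positivity
  choose φ h1 h2 h3 h4 using fun i => hP1 (w / (2 * α i)) ε (hb i) hε
  obtain ⟨H, hH1, hH2, hH3, hH4, hH5⟩ := hP2 d (fun i => w / (2 * α i))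
    (fun i => (π / (2 * (w / (2 * α i)))) ^ 2 + ε) φ hb h1 h2 h3 h4
  have key : ∀ u : Fin d → ℤ, u ≠ 0 → ∀ x : E d,
      (H x = 0 ∧ gradient H x = 0) ∨ (H (x + lp M u) = 0 ∧ gradient H (x + lp M u) = 0) := by
    intro u hu x
    obtain ⟨i, hi⟩ := hw u hu
    by_cases hx : w / (2 * α i) ≤ |x i|
    · exact Or.inl (hH3 x ⟨i, hx⟩)
    · right
      apply hH3
      refine ⟨i, ?_⟩
      rw [not_le] at hx
      have h5 : |(lp M u) i| ≤ |(x + lp M u) i| + |x i| := by
        have := abs_sub (((x + lp M u) i)) (x i)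
        have h6 : (x + lp M u) i - x i = (lp M u) i := by
          rw [PiLp.add_apply]; ring
        rw [h6] at this
        exact this
      have h7 : w / α i ≤ |(lp M u) i| := by
        rw [div_le_iff₀ (hα i)]
        linarith [mul_comm (α i) |(lp M u) i|]
      have h8 : w / α i = w / (2 * α i) + w / (2 * α i) := by
        have := (hα i).ne'
        field_simp
        ring
      linarith
  have hspec := Pool.Agent.H880R3.CP.taskSPEC d M H ⊤ x0 1 hM hH1 hH2 zero_le_one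
    (fun z => by rw [pn_top]; exact hx0 z)
  simp only [pn_top] at hspec
  have z1 : ∑' z : {z : Fin d → ℤ // z ≠ 0}, ∫ y, |H y| * |H (y + lp M z)| = 0 := by
    have : ∀ z : {z : Fin d → ℤ // z ≠ 0}, ∫ y, |H y| * |H (y + lp M z)| = 0 := by
      intro z
      have h9 : (fun y : E d => |H y| * |H (y + lp M z.1)|) = fun _ => (0 : ℝ) := by
        funext y
        rcases key z.1 z.2 y with h | h
        · rw [h.1]; simp
        · rw [h.1]; simp
      rw [h9]
      simp
    simp only [this]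
    exact tsum_zero
  have z2 : ∑' z : {z : Fin d → ℤ // z ≠ 0}, ∫ y, ‖gradient H y‖ * ‖gradient H (y + lp M z)‖ = 0 := by
    have : ∀ z : {z : Fin d → ℤ // z ≠ 0}, ∫ y, ‖gradient H y‖ * ‖gradient H (y + lp M z)‖ = 0 := by
      intro z
      have h9 : (fun y : E d => ‖gradient H y‖ * ‖gradient H (y + lp M z.1)‖) = fun _ => (0 : ℝ) := by
        funext y
        rcases key z.1 z.2 y with h | h
        · rw [h.2]; simp
        · rw [h.2]; simp
      rw [h9]
      simp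
    simp only [this]
    exact tsum_zero
  rw [z1, z2] at hspec
  have hsum : ∑ i, ((π / (2 * (w / (2 * α i)))) ^ 2 + ε) = π ^ 2 * s / w ^ 2 + d * ε := by
    rw [Finset.sum_add_distrib, Finset.sum_const, Finset.card_univ, Fintype.card_fin, nsmul_eq_mul]
    congr 1
    rw [hs, Finset.mul_sum, Finset.sum_div]
    apply Finset.sum_congr rfl
    intro i _
    have := (hα i).ne'
    have := hw0.ne'
    field_simp
  rw [hsum] at hH5
  have h10 : 4 * π ^ 2 * (∫ x, H x ^ 2) ≤ (π ^ 2 * s / w ^ 2 + d * ε) * ∫ x, H x ^ 2 := by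
    have := hspec
    simp only [one_pow, mul_one, sub_zero, add_zero] at this
    linarith
  nlinarith

end Pool.Agent.H624R4
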