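import Pool.Agent.H624R3.CP.Stmts

/-! Flatness for bodies between an ellipsoid and a cross-polytope: task statements (helper624). -/

open MeasureTheory Metric Real

namespace Pool.Agent.H624R4

open Pool.Agent.H624R3.CP

/-- P1: one-dimensional trial function, `C^1`, supported in `[-b,b]`, Dirichlet ratio close to the
first eigenvalue `(π/(2b))^2`. -/
def TaskP1 : Prop := ∀ (b ε : ℝ), 0 < b → 0 < ε → ∃ φ : ℝ → ℝ, ContDiff ℝ 1 φ ∧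
  (∀ y, b ≤ |y| → φ y = 0 ∧ deriv φ y = 0) ∧ 0 < ∫ y, φ y ^ 2 ∧
  ∫ y, deriv φ y ^ 2 ≤ ((π / (2 * b)) ^ 2 + ε) * ∫ y, φ y ^ 2

/-- P2: the product function on `E d`. -/
def TaskP2 : Prop := ∀ (d : ℕ) (b e : Fin d → ℝ) (φ : Fin d → ℝ → ℝ), (∀ i, 0 < b i) →
  (∀ i, ContDiff ℝ 1 (φ i)) → (∀ i y, b i ≤ |y| → φ i y = 0 ∧ deriv (φ i) y = 0) →
  (∀ i, 0 < ∫ y, φ i y ^ 2) → (∀ i, ∫ y, deriv (φ i) y ^ 2 ≤ e i * ∫ y, φ i y ^ 2) →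
  ∃ H : E d → ℝ, ContDiff ℝ 1 H ∧ HasCompactSupport H ∧
    (∀ x : E d, (∃ i, b i ≤ |x i|) → H x = 0 ∧ gradient H x = 0) ∧ 0 < ∫ x, H x ^ 2 ∧
    ∫ x, ‖gradient H x‖ ^ 2 ≤ (∑ i, e i) * ∫ x, H x ^ 2

end Pool.Agent.H624R4
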