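import Pool.Agent.H624R4.Dual

open MeasureTheory Metric Real

namespace Pool.Agent.H624R4

open Pool.Agent.H624R3.CP

lemma fin_min {ι : Type} (U : Finset ι) (f : ι → ℝ) (a : ℝ) (P : ι → Prop)
    (h : ∀ u ∈ U, P u → a < f u) : ∃ ε : ℝ, 0 < ε ∧ ∀ u ∈ U, P u → a + ε ≤ f u := by
  classical
  induction U using Finset.induction_on with
  | empty => exact ⟨1, one_pos, fun u hu => absurd hu (Finset.notMem_empty u)⟩
  | insert b s hb ih =>
    obtain ⟨ε, hε, h1⟩ := ih (fun u hu => h u (Finset.mem_insert_of_mem hu))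
    by_cases hP : P b
    · have h2 := h b (Finset.mem_insert_self b s) hP
      refine ⟨min ε (f b - a), lt_min hε (by linarith), ?_⟩
      intro u hu hPu
      rcases Finset.mem_insert.1 hu with rfl | hu
      · linarith [min_le_right ε (f u - a)]
      · linarith [min_le_left ε (f b - a), h1 u hu hPu]
    · refine ⟨ε, hε, ?_⟩
      intro u hu hPu
      rcases Finset.mem_insert.1 hu with rfl | hu
      · exact absurd hPu hP
      · exact h1 u hu hPu

/-- scaled sup norm of the lattice vector -/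
noncomputable def FF {d : ℕ} (M : Matrix (Fin d) (Fin d) ℝ) (α : Fin d → ℝ) (u : Fin d → ℤ) : ℝ :=
  ‖fun i => α i * (lp M u) i‖

lemma exists_w {d : ℕ} (M : Matrix (Fin d) (Fin d) ℝ) (hM : M.det ≠ 0) (α : Fin d → ℝ)
    (hα : ∀ i, 0 < α i) (a : ℝ) (ha : 0 ≤ a) (h : ∀ u : Fin d → ℤ, u ≠ 0 → a < FF M α u) :
    ∃ w : ℝ, a < w ∧ ∀ u : Fin d → ℤ, u ≠ 0 → w ≤ FF M α u := by
  set A : ℝ := ∑ i, (α i)⁻¹ ^ 2 with hA
  have hA0 : 0 ≤ A := Finset.sum_nonneg fun i _ => sq_nonneg _
  set R : ℝ := (a + 1) * √A with hR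
  have hR0 : 0 ≤ R := by positivity
  obtain ⟨U, hU⟩ := Pool.Agent.H880R3.CP.exists_UE M hM (closedBall (0 : E d) R)
    (isCompact_closedBall 0 R)
  obtain ⟨ε, hε, h1⟩ := fin_min U (FF M α) a (fun u => u ≠ 0) (fun u _ hu => h u hu)
  refine ⟨a + min ε 1, by linarith [lt_min hε one_pos], ?_⟩
  intro u hu
  by_cases hUu : u ∈ U
  · linarith [h1 u hUu hu, min_le_left ε 1]
  · have h2 := hU u hUu 0 (mem_closedBall_self hR0)
    rw [zero_add, mem_closedBall_zero_iff, not_le] at h2
    have hF0 : 0 ≤ FF M α u := norm_nonneg _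
    have h3 : ‖lp M u‖ ^ 2 ≤ (FF M α u) ^ 2 * A := by
      rw [EuclideanSpace.norm_sq_eq, hA, Finset.mul_sum]
      apply Finset.sum_le_sum
      intro i _
      have h4 : ‖α i * (lp M u) i‖ ≤ FF M α u := norm_le_pi_norm (fun i => α i * (lp M u) i) i
      rw [norm_mul, Real.norm_of_nonneg (hα i).le] at h4
      have h5 : ‖(lp M u) i‖ ≤ FF M α u * (α i)⁻¹ := by
        rw [← div_eq_mul_inv, le_div_iff₀ (hα i)]
        linarith [mul_comm (α i) ‖(lp M u) i‖]
      rw [← mul_pow]
      exact pow_le_pow_left₀ (norm_nonneg _) h5 2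
    have h6 : R ^ 2 < ‖lp M u‖ ^ 2 := pow_lt_pow_left₀ h2 hR0 two_ne_zero
    have h7 : R ^ 2 = (a + 1) ^ 2 * A := by rw [hR, mul_pow, Real.sq_sqrt hA0]
    have h8 : (a + 1) ^ 2 * A < (FF M α u) ^ 2 * A := by linarith
    have h9 : (a + 1) ^ 2 < (FF M α u) ^ 2 := lt_of_mul_lt_mul_right h8 hA0
    have h10 : a + 1 < FF M α u := lt_of_pow_lt_pow_left₀ 2 hF0 h9
    linarith [min_le_right ε 1]

theorem flat (hP1 : TaskP1) (hP2 : TaskP2) (d : ℕ) (T : Matrix (Fin d) (Fin d) ℝ)
    (hT : T.det ≠ 0) (c c' : Fin d → ℝ) (α : Fin d → ℝ) (hα : ∀ i, 0 < α i)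
    (K : Set (Fin d → ℝ)) (hin : ∀ x : Fin d → ℝ, ∑ i, (T.mulVec (x - c) i) ^ 2 < 1 → x ∈ K)
    (hout : ∀ x ∈ K, ∑ i, |T.mulVec (x - c') i| / α i ≤ 1)
    (hfree : ∀ z : Fin d → ℤ, (fun i => (z i : ℝ)) ∉ interior K) :
    ∃ y : Fin d → ℤ, y ≠ 0 ∧ ∀ x ∈ K, ∀ x' ∈ K,
      ∑ i, (x i - x' i) * (y i : ℝ) ≤ √(∑ i, α i ^ 2) := by
  have hTu : IsUnit T.det := isUnit_iff_ne_zero.2 hT
  set M : Matrix (Fin d) (Fin d) ℝ := (T⁻¹).transpose with hMdef
  have hMd : M.det ≠ 0 := by
    rw [hMdef, Matrix.det_transpose, Matrix.det_nonsing_inv, Ring.inverse_eq_inv']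
    exact inv_ne_zero hT
  have hdp : ∀ z : Fin d → ℤ, dp M z = lp T z := by
    intro z
    unfold dp
    rw [hMdef, Matrix.transpose_nonsing_inv, Matrix.transpose_transpose,
      Matrix.nonsing_inv_nonsing_inv _ hTu]
  set x0 : E d := WithLp.toLp 2 (T.mulVec c) with hx0def
  have hx0 : ∀ z : Fin d → ℤ, 1 ≤ ‖x0 - dp M z‖ := by
    intro z
    by_contra hlt
    rw [not_le] at hlt
    apply hfree z
    have hopen : IsOpen {x : Fin d → ℝ | ∑ i, (T.mulVec (x - c) i) ^ 2 < 1} := by
      apply isOpen_lt _ continuous_const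
      apply continuous_finsetSum
      intro i _
      apply Continuous.pow
      have : Continuous fun x : Fin d → ℝ => T.mulVec (x - c) :=
        Continuous.matrix_mulVec continuous_const (continuous_id.sub continuous_const)
      exact (continuous_apply i).comp this
    have hsub : {x : Fin d → ℝ | ∑ i, (T.mulVec (x - c) i) ^ 2 < 1} ⊆ K := fun x hx => hin x hx
    apply interior_maximal hsub hopen
    show ∑ i, (T.mulVec ((fun i => (z i : ℝ)) - c) i) ^ 2 < 1
    have h1 : ‖x0 - dp M z‖ ^ 2 < 1 := by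
      have := norm_nonneg (x0 - dp M z)
      nlinarith
    rw [EuclideanSpace.norm_sq_eq] at h1
    convert h1 using 2 with i
    rw [hdp, hx0def]
    unfold Pool.Agent.H624R3.CP.lp
    rw [Matrix.mulVec_sub, Pi.sub_apply, Real.norm_eq_abs, sq_abs]
    simp only [PiLp.sub_apply]
    ring
  set s : ℝ := ∑ i, α i ^ 2 with hs
  have hs0 : 0 ≤ s := Finset.sum_nonneg fun i _ => sq_nonneg _
  by_contra hcon
  push Not at hcon
  have hwidth : ∀ y : Fin d → ℤ, ∀ x ∈ K, ∀ x' ∈ K,
      ∑ i, (x i - x' i) * (y i : ℝ) ≤ 2 * FF M α y := by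
    intro y x hx x' hx'
    have h1 := hout x hx
    have h2 := hout x' hx'
    have hF0 : 0 ≤ FF M α y := norm_nonneg _
    have hv : ∀ i, α i * |(lp M y) i| ≤ FF M α y := by
      intro i
      have h4 : ‖α i * (lp M y) i‖ ≤ FF M α y := norm_le_pi_norm (fun i => α i * (lp M y) i) i
      rwa [norm_mul, Real.norm_of_nonneg (hα i).le, Real.norm_eq_abs] at h4
    have h3 : ∑ i, (x i - x' i) * (y i : ℝ)
        = ∑ i, (T.mulVec (x - c') i - T.mulVec (x' - c') i) * (lp M y) i := by
      have e1 : ∑ i, (x i - x' i) * (y i : ℝ) = (x - x') ⬝ᵥ (fun i => (y i : ℝ)) := rfl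
      have e2 : ∑ i, (T.mulVec (x - c') i - T.mulVec (x' - c') i) * (lp M y) i
          = (T.mulVec (x - x')) ⬝ᵥ (M.mulVec (fun i => (y i : ℝ))) := by
        have : T.mulVec (x - x') = T.mulVec (x - c') - T.mulVec (x' - c') := by
          rw [← Matrix.mulVec_sub]
          congr 1
          abel
        rw [this]
        rfl
      rw [e1, e2, hMdef, Matrix.mulVec_transpose, dotProduct_comm (T.mulVec (x - x')),
        ← Matrix.dotProduct_mulVec, Matrix.mulVec_mulVec, Matrix.nonsing_inv_mul _ hTu,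
        Matrix.one_mulVec, dotProduct_comm]
    rw [h3]
    calc ∑ i, (T.mulVec (x - c') i - T.mulVec (x' - c') i) * (lp M y) i
        ≤ ∑ i, (|T.mulVec (x - c') i| / α i + |T.mulVec (x' - c') i| / α i) * FF M α y := by
          apply Finset.sum_le_sum
          intro i _
          have hαi := hα i
          set p := T.mulVec (x - c') i
          set q := T.mulVec (x' - c') i
          set v := (lp M y) i
          have a1 : (p - q) * v ≤ (|p| + |q|) * |v| := by
            calc (p - q) * v ≤ |(p - q) * v| := le_abs_self _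
              _ = |p - q| * |v| := abs_mul _ _
              _ ≤ (|p| + |q|) * |v| := by
                apply mul_le_mul_of_nonneg_right _ (abs_nonneg _)
                exact abs_sub _ _
          have a2 : (|p| + |q|) * |v| = (|p| / α i + |q| / α i) * (α i * |v|) := by
            field_simp
          have a3 : (|p| / α i + |q| / α i) * (α i * |v|)
              ≤ (|p| / α i + |q| / α i) * FF M α y := by
            apply mul_le_mul_of_nonneg_left (hv i)
            positivity
          linarith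
      _ = (∑ i, |T.mulVec (x - c') i| / α i + ∑ i, |T.mulVec (x' - c') i| / α i) * FF M α y := by
          rw [← Finset.sum_mul, Finset.sum_add_distrib]
      _ ≤ 2 * FF M α y := by
          apply mul_le_mul_of_nonneg_right _ hF0
          linarith
  have hall : ∀ u : Fin d → ℤ, u ≠ 0 → √s / 2 < FF M α u := by
    intro u hu
    obtain ⟨x, hx, x', hx', hlt⟩ := hcon u hu
    have := hwidth u x hx x' hx'
    linarith
  obtain ⟨w, hw1, hw2⟩ := exists_w M hMd α hα (√s / 2) (by positivity) hall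
  have hw0 : 0 < w := lt_of_le_of_lt (by positivity) hw1
  have hdb := dual_bound hP1 hP2 d M hMd α hα x0 hx0 w hw0 (by
    intro u hu
    by_contra hno
    push Not at hno
    have h1 : FF M α u < w := by
      unfold FF
      rw [pi_norm_lt_iff hw0]
      intro i
      rw [norm_mul, Real.norm_of_nonneg (hα i).le, Real.norm_eq_abs]
      exact hno i
    linarith [hw2 u hu])
  have h2 : (√s) ^ 2 = s := Real.sq_sqrt hs0
  have h3 : 0 ≤ √s := Real.sqrt_nonneg s
  nlinarith

end Pool.Agent.H624R4
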