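import Pool.Agent.H624R4.Flat

open MeasureTheory Metric Real

namespace Pool.Agent.H624R4

/-- affine image of the unit ball of `l_p` -/
def lpB {d : ℕ} (p : ℝ) (T : Matrix (Fin d) (Fin d) ℝ) (c : Fin d → ℝ) : Set (Fin d → ℝ) :=
  {x | ∑ i, |T.mulVec (x - c) i| ^ p ≤ 1}

theorem flat_lp (hP1 : TaskP1) (hP2 : TaskP2) (d : ℕ) (hd : 1 ≤ d) (p : ℝ) (hp1 : 1 ≤ p)
    (hp2 : p ≤ 2) (T : Matrix (Fin d) (Fin d) ℝ) (hT : T.det ≠ 0) (c : Fin d → ℝ)
    (hfree : ∀ z : Fin d → ℤ, (fun i => (z i : ℝ)) ∉ interior (lpB p T c)) :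
    ∃ y : Fin d → ℤ, y ≠ 0 ∧ ∀ x ∈ lpB p T c, ∀ x' ∈ lpB p T c,
      ∑ i, (x i - x' i) * (y i : ℝ) ≤ d := by
  have hd0 : (0 : ℝ) < d := by exact_mod_cast hd
  have hp0 : 0 < p := by linarith
  set ρ : ℝ := (d : ℝ) ^ (1 / 2 - 1 / p) with hρ
  have hρ0 : 0 < ρ := Real.rpow_pos_of_pos hd0 _
  have hT' : (ρ⁻¹ • T).det ≠ 0 := by
    rw [Matrix.det_smul]
    exact mul_ne_zero (pow_ne_zero _ (inv_ne_zero hρ0.ne')) hT
  have hmul : ∀ v : Fin d → ℝ, ∀ i, (ρ⁻¹ • T).mulVec v i = ρ⁻¹ * T.mulVec v i := by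
    intro v i
    rw [Matrix.smul_mulVec]
    rfl
  have h := flat hP1 hP2 d (ρ⁻¹ • T) hT' c c (fun _ => √d) (fun _ => Real.sqrt_pos.2 hd0)
    (lpB p T c) ?_ ?_ hfree
  · obtain ⟨y, hy, hy2⟩ := h
    refine ⟨y, hy, fun x hx x' hx' => ?_⟩
    have h1 := hy2 x hx x' hx'
    have h2 : √(∑ i : Fin d, (√(d : ℝ)) ^ 2) = d := by
      rw [Finset.sum_const, Finset.card_univ, Fintype.card_fin, nsmul_eq_mul,
        Real.sq_sqrt hd0.le, Real.sqrt_mul_self hd0.le]
    rw [h2] at h1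
    exact h1
  · intro x hx
    show ∑ i, |T.mulVec (x - c) i| ^ p ≤ 1
    set ξ := T.mulVec (x - c) with hξ
    have h1 : ∑ i, ξ i ^ 2 < ρ ^ 2 := by
      have h2 : ∑ i, ((ρ⁻¹ • T).mulVec (x - c) i) ^ 2 = (∑ i, ξ i ^ 2) / ρ ^ 2 := by
        rw [Finset.sum_div]
        apply Finset.sum_congr rfl
        intro i _
        rw [hmul, ← hξ]
        field_simp
      rw [h2, div_lt_one (by positivity)] at hx
      exact hx
    have hS0 : 0 ≤ ∑ i, |ξ i| ^ p := Finset.sum_nonneg fun i _ => Real.rpow_nonneg (abs_nonneg _) _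
    have hq : 1 ≤ 2 / p := by rw [le_div_iff₀ hp0]; linarith
    have h3 := Real.rpow_sum_le_const_mul_sum_rpow Finset.univ (fun i => |ξ i| ^ p) hq
    have h4 : ∀ i, |(|ξ i| ^ p)| = |ξ i| ^ p := fun i =>
      abs_of_nonneg (Real.rpow_nonneg (abs_nonneg _) _)
    simp only [h4, Finset.card_univ, Fintype.card_fin] at h3
    have h5 : ∀ i, (|ξ i| ^ p) ^ (2 / p) = ξ i ^ 2 := by
      intro i
      rw [← Real.rpow_mul (abs_nonneg _), mul_div_cancel₀ _ hp0.ne', Real.rpow_two, sq_abs]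
    simp only [h5] at h3
    have h6 : (d : ℝ) ^ (2 / p - 1) * ρ ^ 2 = 1 := by
      rw [hρ, ← Real.rpow_natCast, ← Real.rpow_mul hd0.le, ← Real.rpow_add hd0]
      have : 2 / p - 1 + (1 / 2 - 1 / p) * ((2 : ℕ) : ℝ) = 0 := by
        push_cast
        ring
      rw [this, Real.rpow_zero]
    have h7 : (∑ i, |ξ i| ^ p) ^ (2 / p) ≤ 1 := by
      have h8 : (0 : ℝ) < (d : ℝ) ^ (2 / p - 1) := Real.rpow_pos_of_pos hd0 _
      nlinarith
    by_contra hgt
    rw [not_le] at hgt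
    have h9 : 1 < (∑ i, |ξ i| ^ p) ^ (2 / p) := Real.one_lt_rpow hgt (by positivity)
    linarith
  · intro x hx
    have hx' : ∑ i, |T.mulVec (x - c) i| ^ p ≤ 1 := hx
    set ξ := T.mulVec (x - c) with hξ
    have h2 : ∑ i, |(ρ⁻¹ • T).mulVec (x - c) i| / √(d : ℝ) = (∑ i, |ξ i|) / (ρ * √d) := by
      rw [Finset.sum_div]
      apply Finset.sum_congr rfl
      intro i _
      rw [hmul, ← hξ, abs_mul, abs_of_pos (inv_pos.2 hρ0)]
      field_simp
    rw [h2]
    have hsd : 0 < √(d : ℝ) := Real.sqrt_pos.2 hd0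
    rw [div_le_one (by positivity)]
    have h3 := Real.rpow_sum_le_const_mul_sum_rpow Finset.univ ξ hp1
    simp only [Finset.card_univ, Fintype.card_fin] at h3
    have h8 : (0 : ℝ) < (d : ℝ) ^ (p - 1) := Real.rpow_pos_of_pos hd0 _
    have h4 : (∑ i, |ξ i|) ^ p ≤ (d : ℝ) ^ (p - 1) := by nlinarith
    have hS0 : 0 ≤ ∑ i, |ξ i| := Finset.sum_nonneg fun i _ => abs_nonneg _
    have h5 : ∑ i, |ξ i| ≤ ((d : ℝ) ^ (p - 1)) ^ (1 / p) := by
      have := Real.rpow_le_rpow (Real.rpow_nonneg hS0 p) h4 (by positivity : (0 : ℝ) ≤ 1 / p)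
      rwa [← Real.rpow_mul hS0, mul_one_div_cancel hp0.ne', Real.rpow_one] at this
    have h6 : ((d : ℝ) ^ (p - 1)) ^ (1 / p) = ρ * √d := by
      rw [← Real.rpow_mul hd0.le, hρ, Real.sqrt_eq_rpow, ← Real.rpow_add hd0]
      congr 1
      field_simp
      ring
    linarith

theorem sharp (d : ℕ) (hd : 1 ≤ d) : ∃ (T : Matrix (Fin d) (Fin d) ℝ) (c : Fin d → ℝ), T.det ≠ 0 ∧
    (∀ z : Fin d → ℤ, (fun i => (z i : ℝ)) ∉ interior (lpB 1 T c)) ∧
    ∀ y : Fin d → ℤ, y ≠ 0 → ∃ x ∈ lpB 1 T c, ∃ x' ∈ lpB 1 T c,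
      (d : ℝ) ≤ ∑ i, (x i - x' i) * (y i : ℝ) := by
  classical
  have hd0 : (0 : ℝ) < d := by exact_mod_cast hd
  set r : ℝ := 2 / d with hr
  have hr0 : 0 < r := by positivity
  set T : Matrix (Fin d) (Fin d) ℝ := r • (1 : Matrix (Fin d) (Fin d) ℝ) with hT
  have hTm : ∀ v : Fin d → ℝ, ∀ i, T.mulVec v i = r * v i := by
    intro v i
    rw [hT, Matrix.smul_mulVec, Matrix.one_mulVec]
    rfl
  have hmem : ∀ x : Fin d → ℝ, x ∈ lpB 1 T (fun _ => 1 / 2) ↔ ∑ i, |x i - 1 / 2| ≤ d / 2 := by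
    intro x
    show ∑ i, |T.mulVec (x - (fun _ => 1 / 2)) i| ^ (1 : ℝ) ≤ 1 ↔ _
    have h1 : ∑ i, |T.mulVec (x - (fun _ => 1 / 2)) i| ^ (1 : ℝ) = r * ∑ i, |x i - 1 / 2| := by
      rw [Finset.mul_sum]
      apply Finset.sum_congr rfl
      intro i _
      rw [Real.rpow_one, hTm, abs_mul, abs_of_pos hr0]
      rfl
    rw [h1, hr, div_mul_eq_mul_div, div_le_one hd0]
    constructor <;> intro h <;> linarith
  refine ⟨T, fun _ => 1 / 2, ?_, ?_, ?_⟩
  · rw [hT, Matrix.det_smul, Matrix.det_one, mul_one]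
    exact pow_ne_zero _ hr0.ne'
  · intro z hz
    rw [mem_interior_iff_mem_nhds, Metric.mem_nhds_iff] at hz
    obtain ⟨ε, hε, hball⟩ := hz
    -- move outwards
    set x : Fin d → ℝ := fun i => (z i : ℝ) + (if (1 : ℝ) / 2 ≤ z i then ε / 2 else -(ε / 2)) with hx
    have hxb : x ∈ ball (fun i => (z i : ℝ)) ε := by
      rw [mem_ball, dist_pi_lt_iff hε]
      intro i
      rw [Real.dist_eq, hx]
      simp only [add_sub_cancel_left]
      split_ifs
      · rw [abs_of_pos (by linarith)]; linarith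
      · rw [abs_neg, abs_of_pos (by linarith)]; linarith
    have h1 := (hmem x).1 (hball hxb)
    have h2 : ∀ i, 1 / 2 + ε / 2 ≤ |x i - 1 / 2| := by
      intro i
      rw [hx]
      simp only
      split_ifs with h
      · have h3 : (1 : ℤ) ≤ z i := by
          by_contra hlt
          have : z i ≤ 0 := by omega
          have : (z i : ℝ) ≤ 0 := by exact_mod_cast this
          linarith
        have h4 : (1 : ℝ) ≤ z i := by exact_mod_cast h3
        rw [abs_of_nonneg (by linarith)]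
        linarith
      · rw [not_le] at h
        have h3 : z i ≤ 0 := by
          by_contra hlt
          have : 1 ≤ z i := by omega
          have : (1 : ℝ) ≤ z i := by exact_mod_cast this
          linarith
        have h4 : (z i : ℝ) ≤ 0 := by exact_mod_cast h3
        rw [abs_of_nonpos (by linarith)]
        linarith
    have h5 : ∑ i : Fin d, (1 / 2 + ε / 2) ≤ ∑ i, |x i - 1 / 2| := Finset.sum_le_sum fun i _ => h2 i
    rw [Finset.sum_const, Finset.card_univ, Fintype.card_fin, nsmul_eq_mul] at h5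
    nlinarith
  · intro y hy
    obtain ⟨k, hk⟩ : ∃ k, y k ≠ 0 := by
      by_contra hno
      push Not at hno
      exact hy (funext hno)
    set sg : ℝ := if 0 < y k then 1 else -1 with hsg
    have hsg1 : |sg| = 1 := by
      rw [hsg]; split_ifs <;> simp
    have hsg2 : 1 ≤ sg * (y k : ℝ) := by
      rw [hsg]
      split_ifs with h
      · have : (1 : ℤ) ≤ y k := by omega
        have : (1 : ℝ) ≤ y k := by exact_mod_cast this
        linarith
      · have : y k ≤ -1 := by omega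
        have : (y k : ℝ) ≤ -1 := by exact_mod_cast this
        linarith
    have hin : ∀ t : ℝ, |t| = d / 2 →
        (fun i => 1 / 2 + (if i = k then t else 0) : Fin d → ℝ) ∈ lpB 1 T (fun _ => 1 / 2) := by
      intro t ht
      rw [hmem]
      simp only [add_sub_cancel_left]
      have : ∑ i : Fin d, |(if i = k then t else 0)| = |t| := by
        rw [Finset.sum_eq_single k]
        · simp
        · intro i _ hi
          simp [hi]
        · intro h
          exact absurd (Finset.mem_univ k) h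
      rw [this, ht]
    refine ⟨_, hin (sg * (d / 2)) (by rw [abs_mul, hsg1, one_mul, abs_of_pos (by positivity)]), _,
      hin (-(sg * (d / 2))) (by rw [abs_neg, abs_mul, hsg1, one_mul, abs_of_pos (by positivity)]), ?_⟩
    rw [Finset.sum_eq_single k]
    · simp only [if_true]
      nlinarith
    · intro i _ hi
      simp [hi]
    · intro h
      exact absurd (Finset.mem_univ k) h

end Pool.Agent.H624R4
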