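import Pool.Agent.H624R4.FStmts

/-! One-dimensional trial function (helper876 for helper624). -/

open MeasureTheory Metric Real

namespace Pool.Agent.H624R4

namespace P1

/-- clamp -/
noncomputable def cl (b y : ℝ) : ℝ := max (-b) (min b y)

/-- the truncated cosine -/
noncomputable def cc (b k y : ℝ) : ℝ := Real.cos (k * cl b y)

/-- the trial function -/
noncomputable def ph (b k η y : ℝ) : ℝ := cc b k y ^ 2 / (cc b k y + η)

/-- its derivative -/
noncomputable def dph (b k η y : ℝ) : ℝ :=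
  cc b k y * (cc b k y + 2 * η) / (cc b k y + η) ^ 2 * (-(k * Real.sin (k * cl b y)))

lemma cl_lip (b y z : ℝ) : |cl b z - cl b y| ≤ |z - y| := by
  unfold cl
  have h1 := abs_max_sub_max_le_max (-b) (min b z) (-b) (min b y)
  have h2 := abs_min_sub_min_le_max b z b y
  simp only [sub_self, abs_zero] at h1 h2
  have h3 : |min b z - min b y| ≤ |z - y| := h2.trans (max_le (abs_nonneg _) le_rfl)
  exact h1.trans (max_le (abs_nonneg _) h3)

lemma cl_mem {b : ℝ} (hb : 0 < b) (y : ℝ) : -b ≤ cl b y ∧ cl b y ≤ b := by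
  unfold cl
  exact ⟨le_max_left _ _, max_le (by linarith) (min_le_left _ _)⟩

lemma cl_of_mem {b y : ℝ} (h : |y| ≤ b) : cl b y = y := by
  unfold cl
  rw [abs_le] at h
  rw [min_eq_right h.2, max_eq_right h.1]

lemma cl_of_ge {b y : ℝ} (hb : 0 < b) (h : b ≤ |y|) : cl b y = b ∨ cl b y = -b := by
  unfold cl
  rcases le_abs.1 h with h1 | h1
  · left
    rw [min_eq_left h1, max_eq_right (by linarith)]
  · right
    rw [min_eq_right (by linarith), max_eq_left (by linarith)]

lemma continuous_cl (b : ℝ) : Continuous (cl b) := by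
  unfold cl
  fun_prop

lemma continuous_cc (b k : ℝ) : Continuous (cc b k) := by
  unfold cc
  exact Real.continuous_cos.comp (continuous_const.mul (continuous_cl b))

lemma cc_nonneg {b k : ℝ} (hb : 0 < b) (hk : 0 < k) (hkb : k * b = π / 2) (y : ℝ) :
    0 ≤ cc b k y := by
  unfold cc
  obtain ⟨h1, h2⟩ := cl_mem hb y
  apply Real.cos_nonneg_of_neg_pi_div_two_le_of_le
  · nlinarith
  · nlinarith

lemma cc_le_one (b k y : ℝ) : cc b k y ≤ 1 := Real.cos_le_one _

lemma cc_zero {b k : ℝ} (hb : 0 < b) (hkb : k * b = π / 2) {y : ℝ} (h : b ≤ |y|) :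
    cc b k y = 0 := by
  unfold cc
  rcases cl_of_ge hb h with h1 | h1
  · rw [h1, hkb, Real.cos_pi_div_two]
  · rw [h1, mul_neg, Real.cos_neg, hkb, Real.cos_pi_div_two]

lemma cc_lip {b k : ℝ} (hk : 0 < k) (y z : ℝ) : |cc b k z - cc b k y| ≤ k * |z - y| := by
  unfold cc
  have h1 := Real.lipschitzWith_cos.dist_le_mul (k * cl b z) (k * cl b y)
  rw [Real.dist_eq, Real.dist_eq] at h1
  have h2 : |k * cl b z - k * cl b y| = k * |cl b z - cl b y| := by
    rw [← mul_sub, abs_mul, abs_of_pos hk]
  rw [h2] at h1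
  have h3 := mul_le_mul_of_nonneg_left (cl_lip b y z) hk.le
  simp only [NNReal.coe_one, one_mul] at h1
  linarith

lemma continuous_ph {b k η : ℝ} (hb : 0 < b) (hk : 0 < k) (hkb : k * b = π / 2) (hη : 0 < η) :
    Continuous (ph b k η) := by
  unfold ph
  refine ((continuous_cc b k).pow 2).div ((continuous_cc b k).add continuous_const) (fun y => ?_)
  have := cc_nonneg hb hk hkb y
  positivity

lemma continuous_dph {b k η : ℝ} (hb : 0 < b) (hk : 0 < k) (hkb : k * b = π / 2) (hη : 0 < η) :
    Continuous (dph b k η) := by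
  unfold dph
  refine Continuous.mul (Continuous.div ?_ ?_ (fun y => ?_)) ?_
  · exact (continuous_cc b k).mul ((continuous_cc b k).add continuous_const)
  · exact ((continuous_cc b k).add continuous_const).pow 2
  · have := cc_nonneg hb hk hkb y
    positivity
  · exact (continuous_const.mul
      (Real.continuous_sin.comp (continuous_const.mul (continuous_cl b)))).neg

lemma hasDerivAt_ph {b k η : ℝ} (hb : 0 < b) (hk : 0 < k) (hkb : k * b = π / 2) (hη : 0 < η)
    (y : ℝ) : HasDerivAt (ph b k η) (dph b k η y) y := by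
  rcases lt_or_ge |y| b with h | h
  · -- interior
    have hev : ∀ᶠ z in nhds y, ph b k η z =
        Real.cos (k * z) ^ 2 / (Real.cos (k * z) + η) := by
      have : ∀ᶠ z in nhds y, |z| < b := continuous_abs.continuousAt.eventually_lt_const h
      filter_upwards [this] with z hz
      unfold ph cc
      rw [cl_of_mem hz.le]
    refine HasDerivAt.congr_of_eventuallyEq ?_ hev
    have hc := cc_nonneg hb hk hkb y
    have e1 : cc b k y = Real.cos (k * y) := by unfold cc; rw [cl_of_mem h.le]
    have h1 : HasDerivAt (fun z : ℝ => Real.cos (k * z)) (-Real.sin (k * y) * (k * 1)) y :=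
      (Real.hasDerivAt_cos (k * y)).comp y ((hasDerivAt_id y).const_mul k)
    have h2 : HasDerivAt (fun z : ℝ => Real.cos (k * z) ^ 2 / (Real.cos (k * z) + η)) _ y :=
      (h1.pow 2).div (h1.add_const η) (by rw [← e1]; positivity)
    refine h2.congr_deriv ?_
    unfold dph
    rw [cl_of_mem h.le, e1]
    have h3 : Real.cos (k * y) + η ≠ 0 := by rw [← e1]; positivity
    simp only [Pi.pow_apply]
    push_cast
    rw [div_mul_eq_mul_div]
    congr 1
    ring
  · -- outside
    have hy : cc b k y = 0 := cc_zero hb hkb h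
    have hd : dph b k η y = 0 := by unfold dph; rw [hy]; simp
    have hp : ph b k η y = 0 := by unfold ph; rw [hy]; simp
    rw [hd, hasDerivAt_iff_isLittleO, hp]
    simp only [sub_zero, smul_zero]
    have hbound : ∀ z, |ph b k η z| ≤ k ^ 2 / η * |z - y| ^ 2 := by
      intro z
      have h0 := cc_nonneg hb hk hkb z
      have h1 := cc_lip (b := b) hk y z
      rw [hy, sub_zero, abs_of_nonneg h0] at h1
      have h2 : cc b k z ^ 2 ≤ (k * |z - y|) ^ 2 := pow_le_pow_left₀ h0 h1 2
      unfold ph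
      rw [abs_of_nonneg (by positivity)]
      calc cc b k z ^ 2 / (cc b k z + η) ≤ cc b k z ^ 2 / η := by
            apply div_le_div_of_nonneg_left (by positivity) hη
            linarith
        _ ≤ (k * |z - y|) ^ 2 / η := by gcongr
        _ = k ^ 2 / η * |z - y| ^ 2 := by ring
    have hO : (fun z => ph b k η z) =O[nhds y] (fun z => (z - y) ^ 2) := by
      refine Asymptotics.IsBigO.of_bound (k ^ 2 / η) (Filter.Eventually.of_forall fun z => ?_)
      rw [Real.norm_eq_abs, norm_pow, Real.norm_eq_abs]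
      exact hbound z
    refine hO.trans_isLittleO ?_
    have h2 : (fun z : ℝ => (z - y) ^ 2) = fun z => (z - y) * (z - y) := by
      funext z; ring
    rw [h2]
    have h3 : (fun z : ℝ => z - y) =o[nhds y] (fun _ => (1 : ℝ)) := by
      rw [Asymptotics.isLittleO_one_iff]
      have : Filter.Tendsto (fun z : ℝ => z - y) (nhds y) (nhds (y - y)) :=
        (continuous_id.sub continuous_const).tendsto y
      rwa [sub_self] at this
    have h4 := h3.mul_isBigO (Asymptotics.isBigO_refl (fun z : ℝ => z - y) (nhds y))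
    simpa using h4

lemma int_sin {b k : ℝ} (hk : 0 < k) (hkb : k * b = π / 2) :
    ∫ x in (-b)..b, Real.sin (k * x) ^ 2 = b := by
  rw [intervalIntegral.integral_comp_mul_left (fun x => Real.sin x ^ 2) hk.ne', integral_sin_sq]
  rw [mul_neg, hkb]
  rw [Real.sin_neg, Real.cos_neg, Real.cos_pi_div_two, smul_eq_mul]
  have : b = k⁻¹ * (π / 2) := by rw [← hkb]; field_simp
  rw [this]
  ring

lemma int_cos {b k : ℝ} (hk : 0 < k) (hkb : k * b = π / 2) :
    ∫ x in (-b)..b, Real.cos (k * x) ^ 2 = b := by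
  rw [intervalIntegral.integral_comp_mul_left (fun x => Real.cos x ^ 2) hk.ne', integral_cos_sq]
  rw [mul_neg, hkb]
  rw [Real.sin_neg, Real.cos_neg, Real.cos_pi_div_two, smul_eq_mul]
  have : b = k⁻¹ * (π / 2) := by rw [← hkb]; field_simp
  rw [this]
  ring

lemma dph_sq_le {b k η : ℝ} (hb : 0 < b) (hk : 0 < k) (hkb : k * b = π / 2) (hη : 0 < η)
    {y : ℝ} (hy : |y| ≤ b) : dph b k η y ^ 2 ≤ k ^ 2 * Real.sin (k * y) ^ 2 := by
  have h0 := cc_nonneg hb hk hkb y
  unfold dph
  rw [cl_of_mem hy]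
  set c := cc b k y
  have h1 : 0 ≤ c * (c + 2 * η) / (c + η) ^ 2 := by positivity
  have h2 : c * (c + 2 * η) / (c + η) ^ 2 ≤ 1 := by
    rw [div_le_one (by positivity)]
    nlinarith
  have h3 : (c * (c + 2 * η) / (c + η) ^ 2) ^ 2 ≤ 1 := by
    calc (c * (c + 2 * η) / (c + η) ^ 2) ^ 2 ≤ 1 ^ 2 := pow_le_pow_left₀ h1 h2 2
      _ = 1 := one_pow 2
  rw [mul_pow]
  calc (c * (c + 2 * η) / (c + η) ^ 2) ^ 2 * (-(k * Real.sin (k * y))) ^ 2 ≤
      1 * (-(k * Real.sin (k * y))) ^ 2 := mul_le_mul_of_nonneg_right h3 (sq_nonneg _)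
    _ = k ^ 2 * Real.sin (k * y) ^ 2 := by ring

lemma ph_sq_ge {b k η : ℝ} (hb : 0 < b) (hk : 0 < k) (hkb : k * b = π / 2) (hη : 0 < η)
    {y : ℝ} (hy : |y| ≤ b) : Real.cos (k * y) ^ 2 - 2 * η ≤ ph b k η y ^ 2 := by
  have h0 := cc_nonneg hb hk hkb y
  have h1 := cc_le_one b k y
  have e : cc b k y = Real.cos (k * y) := by unfold cc; rw [cl_of_mem hy]
  unfold ph
  rw [← e]
  set c := cc b k y
  have h2 : c - η ≤ c ^ 2 / (c + η) := by
    rw [le_div_iff₀ (by positivity)]
    nlinarith [sq_nonneg η]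
  have h3 : 0 ≤ c ^ 2 / (c + η) := by positivity
  rcases le_or_gt η c with h4 | h4
  · have h5 : (c - η) ^ 2 ≤ (c ^ 2 / (c + η)) ^ 2 := pow_le_pow_left₀ (by linarith) h2 2
    nlinarith
  · have h5 : c ^ 2 - 2 * η ≤ 0 := by nlinarith
    have h6 : 0 ≤ (c ^ 2 / (c + η)) ^ 2 := sq_nonneg _
    linarith

end P1

open P1 in
/-- The task. -/
theorem taskP1 : TaskP1 := by
  intro b ε hb hε
  set k : ℝ := π / (2 * b) with hk'
  have hk : 0 < k := by have := Real.pi_pos; positivity
  have hkb : k * b = π / 2 := by rw [hk']; field_simp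
  have hK : 0 < k ^ 2 := by positivity
  set η : ℝ := ε / (4 * (k ^ 2 + ε)) with hη'
  have hη : 0 < η := by positivity
  have hcont := continuous_ph hb hk hkb hη
  have hdcont := continuous_dph hb hk hkb hη
  have hderiv : deriv (ph b k η) = dph b k η :=
    funext fun y => (hasDerivAt_ph hb hk hkb hη y).deriv
  have hzero : ∀ y, b ≤ |y| → ph b k η y = 0 ∧ dph b k η y = 0 := by
    intro y hy
    have h := cc_zero (k := k) hb hkb hy
    constructor
    · unfold ph; rw [h]; simp
    · unfold dph; rw [h]; simp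
  have hsupp : ∀ g : ℝ → ℝ, (∀ y, b ≤ |y| → g y = 0) →
      ∫ y, g y = ∫ y in (-b)..b, g y := by
    intro g hg
    refine (intervalIntegral.integral_eq_integral_of_support_subset ?_).symm
    intro y hy
    have h1 : ¬ b ≤ |y| := fun h => hy (hg y h)
    rw [not_le, abs_lt] at h1
    exact ⟨h1.1, h1.2.le⟩
  have hI1 : ∫ y, ph b k η y ^ 2 = ∫ y in (-b)..b, ph b k η y ^ 2 :=
    hsupp _ fun y hy => by rw [(hzero y hy).1]; simp
  have hI2 : ∫ y, deriv (ph b k η) y ^ 2 = ∫ y in (-b)..b, dph b k η y ^ 2 := by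
    rw [hderiv]
    exact hsupp _ fun y hy => by rw [(hzero y hy).2]; simp
  have hbb : -b ≤ b := by linarith
  have hlow : b - 4 * η * b ≤ ∫ y, ph b k η y ^ 2 := by
    rw [hI1]
    have h1 : ∫ y in (-b)..b, (Real.cos (k * y) ^ 2 - 2 * η) = b - 4 * η * b := by
      rw [intervalIntegral.integral_sub, int_cos hk hkb, intervalIntegral.integral_const]
      · simp only [smul_eq_mul]; ring
      · exact ((Real.continuous_cos.comp (continuous_const.mul continuous_id)).pow 2).intervalIntegrable
          _ _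
      · exact intervalIntegrable_const
    rw [← h1]
    refine intervalIntegral.integral_mono_on hbb ?_ ((hcont.pow 2).intervalIntegrable _ _) ?_
    · exact (((Real.continuous_cos.comp (continuous_const.mul continuous_id)).pow 2).sub
        continuous_const).intervalIntegrable _ _
    · intro y hy
      exact ph_sq_ge hb hk hkb hη (abs_le.2 hy)
  have hup : ∫ y, deriv (ph b k η) y ^ 2 ≤ k ^ 2 * b := by
    rw [hI2]
    have h1 : ∫ y in (-b)..b, k ^ 2 * Real.sin (k * y) ^ 2 = k ^ 2 * b := by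
      rw [intervalIntegral.integral_const_mul, int_sin hk hkb]
    rw [← h1]
    refine intervalIntegral.integral_mono_on hbb ((hdcont.pow 2).intervalIntegrable _ _) ?_ ?_
    · exact (continuous_const.mul
        ((Real.continuous_sin.comp (continuous_const.mul continuous_id)).pow 2)).intervalIntegrable _ _
    · intro y hy
      exact dph_sq_le hb hk hkb hη (abs_le.2 hy)
  have h4η : 4 * η = ε / (k ^ 2 + ε) := by
    rw [hη']
    field_simp
  have hval : b - 4 * η * b = k ^ 2 / (k ^ 2 + ε) * b := by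
    rw [h4η]
    field_simp
    ring
  have hpos : 0 < b - 4 * η * b := by
    rw [hval]
    positivity
  refine ⟨ph b k η, ?_, ?_, lt_of_lt_of_le hpos hlow, ?_⟩
  · rw [contDiff_one_iff_deriv]
    refine ⟨fun y => (hasDerivAt_ph hb hk hkb hη y).differentiableAt, ?_⟩
    rw [hderiv]
    exact hdcont
  · intro y hy
    rw [hderiv]
    exact hzero y hy
  · refine hup.trans ?_
    calc k ^ 2 * b = (k ^ 2 + ε) * (b - 4 * η * b) := by
          rw [hval]
          field_simp
      _ ≤ (k ^ 2 + ε) * ∫ y, ph b k η y ^ 2 :=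
          mul_le_mul_of_nonneg_left hlow (by positivity)

end Pool.Agent.H624R4
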