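import Pool.Agent.H624R4.FStmts

open MeasureTheory Metric Real Set intervalIntegral

namespace Pool.Agent.H624R4.P1b

noncomputable def k (η t : ℝ) : ℝ := max 0 (min (t / η) 1)

lemma k_cont (η : ℝ) : Continuous (k η) := by unfold k; fun_prop

lemma k_nonneg (η t : ℝ) : 0 ≤ k η t := le_max_left _ _

lemma k_le (η t : ℝ) : k η t ≤ 1 := max_le zero_le_one (min_le_right _ _)

lemma k_neg {η t : ℝ} (hη : 0 < η) (ht : t ≤ 0) : k η t = 0 := by
  unfold k
  apply max_eq_left
  exact (min_le_left _ _).trans (div_nonpos_of_nonpos_of_nonneg ht hη.le)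

lemma k_one {η t : ℝ} (hη : 0 < η) (ht : η ≤ t) : k η t = 1 := by
  unfold k
  rw [min_eq_right ((one_le_div hη).2 ht)]
  exact max_eq_right zero_le_one

noncomputable def G (η s : ℝ) : ℝ := ∫ t in (0:ℝ)..s, k η t

lemma G_deriv (η s : ℝ) : HasDerivAt (G η) (k η s) s :=
  ((k_cont η).integral_hasStrictDerivAt 0 s).hasDerivAt

lemma G_zero {η s : ℝ} (hη : 0 < η) (hs : s ≤ 0) : G η s = 0 := by
  unfold G
  rw [intervalIntegral.integral_congr (g := fun _ => (0:ℝ))]
  · simp
  · intro t ht
    rw [uIcc_of_ge hs] at ht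
    exact k_neg hη ht.2

lemma G_nonneg {η s : ℝ} (hη : 0 < η) : 0 ≤ G η s := by
  rcases le_total s 0 with h | h
  · rw [G_zero hη h]
  · exact intervalIntegral.integral_nonneg h (fun t _ => k_nonneg η t)

lemma G_ge {η s : ℝ} (hη : 0 < η) : s - η ≤ G η s := by
  rcases le_total s η with h | h
  · linarith [G_nonneg (s := s) hη]
  · have h1 : G η s = (∫ t in (0:ℝ)..η, k η t) + ∫ t in η..s, k η t :=
      (intervalIntegral.integral_add_adjacent_intervals ((k_cont η).intervalIntegrable _ _)
        ((k_cont η).intervalIntegrable _ _)).symm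
    have h2 : ∫ t in η..s, k η t = s - η := by
      rw [intervalIntegral.integral_congr (g := fun _ => (1:ℝ))]
      · simp
      · intro t ht
        rw [uIcc_of_le h] at ht
        exact k_one hη ht.1
    have h3 : 0 ≤ ∫ t in (0:ℝ)..η, k η t :=
      intervalIntegral.integral_nonneg hη.le (fun t _ => k_nonneg η t)
    rw [h1, h2]
    linarith

noncomputable def ph (b η y : ℝ) : ℝ := if |y| < 2 * b then G η (cos (π / (2 * b) * y)) else 0

noncomputable def phd (b η y : ℝ) : ℝ :=
  if |y| < 2 * b then k η (cos (π / (2 * b) * y)) * (-sin (π / (2 * b) * y) * (π / (2 * b))) else 0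

lemma cos_neg {b y : ℝ} (hb : 0 < b) (h1 : b ≤ |y|) (h2 : |y| < 2 * b) :
    cos (π / (2 * b) * y) ≤ 0 := by
  have e : cos (π / (2 * b) * y) = cos (π / (2 * b) * |y|) := by
    rcases abs_cases y with h | h
    · rw [h.1]
    · rw [h.1, mul_neg, Real.cos_neg]
  rw [e]
  have hpb : 0 < π / (2 * b) := by positivity
  have e1 : π / (2 * b) * b = π / 2 := by field_simp
  have e2 : π / (2 * b) * (2 * b) = π := by field_simp
  apply Real.cos_nonpos_of_pi_div_two_le_of_le
  · rw [← e1]; exact mul_le_mul_of_nonneg_left h1 hpb.le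
  · have := mul_lt_mul_of_pos_left h2 hpb
    rw [e2] at this
    linarith [Real.pi_pos]

lemma ph_zero {b η y : ℝ} (hb : 0 < b) (hη : 0 < η) (h : b ≤ |y|) : ph b η y = 0 := by
  unfold ph
  split_ifs with h2
  · exact G_zero hη (cos_neg hb h h2)
  · rfl

lemma phd_zero {b η y : ℝ} (hb : 0 < b) (hη : 0 < η) (h : b ≤ |y|) : phd b η y = 0 := by
  unfold phd
  split_ifs with h2
  · rw [k_neg hη (cos_neg hb h h2), zero_mul]
  · rfl

lemma ph_deriv {b η : ℝ} (hb : 0 < b) (hη : 0 < η) (y : ℝ) : HasDerivAt (ph b η) (phd b η y) y := by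
  rcases lt_or_ge (|y|) (2 * b) with h | h
  · have h1 : HasDerivAt (fun y => G η (cos (π / (2 * b) * y)))
        (k η (cos (π / (2 * b) * y)) * (-sin (π / (2 * b) * y) * (π / (2 * b)))) y := by
      have h2 : HasDerivAt (fun y => π / (2 * b) * y) (π / (2 * b)) y := by
        simpa using (hasDerivAt_id y).const_mul (π / (2 * b))
      exact (G_deriv η _).comp y (h2.cos)
    have h3 : phd b η y = k η (cos (π / (2 * b) * y)) * (-sin (π / (2 * b) * y) * (π / (2 * b))) := by
      unfold phd; rw [if_pos h]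
    rw [h3]
    refine h1.congr_of_eventuallyEq ?_
    have ho : IsOpen {y : ℝ | |y| < 2 * b} := isOpen_lt continuous_abs continuous_const
    filter_upwards [ho.mem_nhds h] with z hz
    unfold ph
    exact if_pos hz
  · have h3 : phd b η y = 0 := phd_zero hb hη (by linarith)
    rw [h3]
    refine (hasDerivAt_const y (0:ℝ)).congr_of_eventuallyEq ?_
    have ho : IsOpen {y : ℝ | b < |y|} := isOpen_lt continuous_const continuous_abs
    filter_upwards [ho.mem_nhds (show b < |y| by linarith)] with z hz
    exact ph_zero hb hη (le_of_lt hz)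

lemma phd_cont {b η : ℝ} (hb : 0 < b) (hη : 0 < η) : Continuous (phd b η) := by
  rw [continuous_iff_continuousAt]
  intro y
  rcases lt_or_ge (|y|) (2 * b) with h | h
  · have h1 : Continuous (fun y => k η (cos (π / (2 * b) * y)) *
        (-sin (π / (2 * b) * y) * (π / (2 * b)))) := by
      have := k_cont η
      fun_prop
    refine h1.continuousAt.congr ?_
    have ho : IsOpen {y : ℝ | |y| < 2 * b} := isOpen_lt continuous_abs continuous_const
    filter_upwards [ho.mem_nhds h] with z hz
    unfold phd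
    exact (if_pos hz).symm
  · refine (continuousAt_const (y := (0:ℝ))).congr ?_
    have ho : IsOpen {y : ℝ | b < |y|} := isOpen_lt continuous_const continuous_abs
    filter_upwards [ho.mem_nhds (show b < |y| by linarith)] with z hz
    exact (phd_zero hb hη (le_of_lt hz)).symm

lemma ph_c1 {b η : ℝ} (hb : 0 < b) (hη : 0 < η) : ContDiff ℝ 1 (ph b η) := by
  rw [contDiff_one_iff_deriv]
  refine ⟨fun y => (ph_deriv hb hη y).differentiableAt, ?_⟩
  have : deriv (ph b η) = phd b η := funext fun y => (ph_deriv hb hη y).deriv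
  rw [this]
  exact phd_cont hb hη

lemma int_eq {b : ℝ} (hb : 0 < b) (f : ℝ → ℝ) (hf : ∀ y, b ≤ |y| → f y = 0) :
    ∫ y, f y = ∫ y in (-b)..b, f y := by
  rw [intervalIntegral.integral_of_le (by linarith)]
  symm
  apply setIntegral_eq_integral_of_forall_compl_eq_zero
  intro y hy
  apply hf
  rw [mem_Ioc, not_and_or, not_lt, not_le] at hy
  rcases hy with hy | hy
  · rw [le_abs]; right; linarith
  · rw [le_abs]; left; exact hy.le

lemma int_sin {b : ℝ} (hb : 0 < b) : ∫ y in (-b)..b, sin (π / (2 * b) * y) ^ 2 = b := by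
  have hc : π / (2 * b) ≠ 0 := by positivity
  rw [intervalIntegral.integral_comp_mul_left (fun x => sin x ^ 2) hc, integral_sin_sq]
  have e1 : π / (2 * b) * b = π / 2 := by field_simp
  have e2 : π / (2 * b) * (-b) = -(π / 2) := by field_simp
  rw [e1, e2, Real.cos_neg, Real.cos_pi_div_two]
  simp only [smul_eq_mul]
  field_simp
  ring

lemma int_cos {b : ℝ} (hb : 0 < b) : ∫ y in (-b)..b, cos (π / (2 * b) * y) ^ 2 = b := by
  have h1 : ∫ y in (-b)..b, cos (π / (2 * b) * y) ^ 2
      = ∫ y in (-b)..b, (1 - sin (π / (2 * b) * y) ^ 2) := by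
    apply intervalIntegral.integral_congr
    intro y _
    simp only
    rw [Real.cos_sq']
  rw [h1, intervalIntegral.integral_sub (by apply Continuous.intervalIntegrable; fun_prop) (by
    apply Continuous.intervalIntegrable; fun_prop), int_sin hb, intervalIntegral.integral_const]
  simp only [smul_eq_mul]
  ring

end Pool.Agent.H624R4.P1b

namespace Pool.Agent.H624R4

open P1b

theorem taskP1b : TaskP1 := by
  intro b ε hb hε
  set A : ℝ := (π / (2 * b)) ^ 2 with hA
  have hA0 : 0 < A := by positivity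
  set η : ℝ := ε / (4 * (A + ε)) with hη
  have hη0 : 0 < η := by positivity
  have hη1 : η < 1 / 4 := by
    rw [hη, div_lt_div_iff₀ (by positivity) (by norm_num)]
    linarith
  have hd : deriv (ph b η) = phd b η := funext fun y => (ph_deriv hb hη0 y).deriv
  have hcos0 : ∀ y ∈ Set.Icc (-b) b, 0 ≤ cos (π / (2 * b) * y) := by
    intro y hy
    have hpb : 0 < π / (2 * b) := by positivity
    have e1 : π / (2 * b) * b = π / 2 := by field_simp
    apply Real.cos_nonneg_of_neg_pi_div_two_le_of_le
    · have := mul_le_mul_of_nonneg_left hy.1 hpb.le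
      rw [mul_neg, e1] at this
      linarith
    · have := mul_le_mul_of_nonneg_left hy.2 hpb.le
      rw [e1] at this
      linarith
  have hlow : b - 4 * b * η ≤ ∫ y, ph b η y ^ 2 := by
    rw [int_eq hb (fun y => ph b η y ^ 2) (fun y hy => by
      show ph b η y ^ 2 = 0; rw [ph_zero hb hη0 hy]; ring)]
    have h1 : ∫ y in (-b)..b, (cos (π / (2 * b) * y) ^ 2 - 2 * η) = b - 4 * b * η := by
      rw [intervalIntegral.integral_sub (by apply Continuous.intervalIntegrable; fun_prop)
        (by apply Continuous.intervalIntegrable; fun_prop), int_cos hb,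
        intervalIntegral.integral_const]
      simp only [smul_eq_mul]
      ring
    rw [← h1]
    apply intervalIntegral.integral_mono_on (by linarith)
      (by apply Continuous.intervalIntegrable; fun_prop)
      ((((ph_c1 hb hη0).continuous).pow 2).intervalIntegrable _ _)
    intro y hy
    have h2 := hcos0 y hy
    have h3 : cos (π / (2 * b) * y) ≤ 1 := Real.cos_le_one _
    have habs : |y| < 2 * b := by
      rw [abs_lt]; constructor <;> linarith [hy.1, hy.2]
    have h4 : ph b η y = G η (cos (π / (2 * b) * y)) := by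
      unfold ph; rw [if_pos habs]
    show cos (π / (2 * b) * y) ^ 2 - 2 * η ≤ ph b η y ^ 2
    rw [h4]
    have h5 := G_ge (s := cos (π / (2 * b) * y)) hη0
    have h6 := G_nonneg (s := cos (π / (2 * b) * y)) hη0
    set x := cos (π / (2 * b) * y)
    set g := G η x
    rcases le_total x η with h | h
    · nlinarith [sq_nonneg g]
    · nlinarith [sq_nonneg η, mul_nonneg hη0.le h2]
  have hup : ∫ y, deriv (ph b η) y ^ 2 ≤ A * b := by
    rw [hd, int_eq hb (fun y => phd b η y ^ 2) (fun y hy => by
      show phd b η y ^ 2 = 0; rw [phd_zero hb hη0 hy]; ring)]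
    have h1 : ∫ y in (-b)..b, A * sin (π / (2 * b) * y) ^ 2 = A * b := by
      rw [intervalIntegral.integral_const_mul, int_sin hb]
    rw [← h1]
    apply intervalIntegral.integral_mono_on (by linarith)
      (((phd_cont hb hη0).pow 2).intervalIntegrable _ _)
      (by apply Continuous.intervalIntegrable; fun_prop)
    intro y hy
    have habs : |y| < 2 * b := by
      rw [abs_lt]; constructor <;> linarith [hy.1, hy.2]
    have h4 : phd b η y = k η (cos (π / (2 * b) * y)) * (-sin (π / (2 * b) * y) * (π / (2 * b))) := by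
      unfold phd; rw [if_pos habs]
    show phd b η y ^ 2 ≤ A * sin (π / (2 * b) * y) ^ 2
    rw [h4, hA]
    have h5 := k_nonneg η (cos (π / (2 * b) * y))
    have h6 := k_le η (cos (π / (2 * b) * y))
    have h7 : k η (cos (π / (2 * b) * y)) ^ 2 ≤ 1 := by nlinarith
    have h8 : (k η (cos (π / (2 * b) * y)) * (-sin (π / (2 * b) * y) * (π / (2 * b)))) ^ 2
        = k η (cos (π / (2 * b) * y)) ^ 2 * ((π / (2 * b)) ^ 2 * sin (π / (2 * b) * y) ^ 2) := by
      ring
    rw [h8]
    have h9 : 0 ≤ (π / (2 * b)) ^ 2 * sin (π / (2 * b) * y) ^ 2 := by positivity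
    nlinarith
  refine ⟨ph b η, ph_c1 hb hη0, ?_, ?_, ?_⟩
  · intro y hy
    exact ⟨ph_zero hb hη0 hy, by rw [hd]; exact phd_zero hb hη0 hy⟩
  · have : 0 < b - 4 * b * η := by nlinarith
    linarith
  · have h1 : (A + ε) * η = ε / 4 := by
      rw [hη]; field_simp
    have h2 : (A + ε) * (b - 4 * b * η) = A * b := by
      have : (A + ε) * (b - 4 * b * η) = (A + ε) * b - 4 * b * ((A + ε) * η) := by ring
      rw [this, h1]; ring
    have h3 : (A + ε) * (b - 4 * b * η) ≤ (A + ε) * ∫ y, ph b η y ^ 2 :=
      mul_le_mul_of_nonneg_left hlow (by positivity)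
    linarith

end Pool.Agent.H624R4
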