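import Mathlib
import Pool.Agent.H624R4.FStmts

set_option autoImplicit false

/-! Task P2 of H624-FLAT: the product function on Euclidean space (helper283). -/

open MeasureTheory Metric Real

namespace Pool.Agent.H624R4

open Pool.Agent.H624R3.CP

namespace P2

/-- product of functions of the coordinates -/
noncomputable def pf {d : ℕ} (ψ : Fin d → ℝ → ℝ) (x : E d) : ℝ := ∏ i, ψ i (x i)

lemma pf_int {d : ℕ} (ψ : Fin d → ℝ → ℝ) : ∫ x : E d, pf ψ x = ∏ i, ∫ y, ψ i y := by
  have hmp := (PiLp.volume_preserving_toLp (Fin d))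
  have h1 : ∫ x : E d, pf ψ x = ∫ y : Fin d → ℝ, pf ψ (WithLp.toLp 2 y) := by
    symm
    exact hmp.integral_comp (MeasurableEquiv.toLp 2 (Fin d → ℝ)).measurableEmbedding _
  rw [h1]
  exact integral_fintype_prod_volume_eq_prod ψ

lemma pf_cont {d : ℕ} (ψ : Fin d → ℝ → ℝ) (hψ : ∀ i, Continuous (ψ i)) :
    Continuous (pf ψ) := by
  unfold pf
  apply continuous_finsetProd
  intro i _
  exact (hψ i).comp (by fun_prop)

lemma pf_supp {d : ℕ} (b : Fin d → ℝ) (f : E d → ℝ)
    (h : ∀ x : E d, (∃ i, b i ≤ |x i|) → f x = 0) : HasCompactSupport f := by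
  apply HasCompactSupport.intro (isCompact_closedBall (0 : E d) (√(∑ i, b i ^ 2)))
  intro x hx
  apply h
  by_contra hcon
  push Not at hcon
  apply hx
  rw [mem_closedBall_zero_iff, EuclideanSpace.norm_eq]
  apply Real.sqrt_le_sqrt
  apply Finset.sum_le_sum
  intro i _
  rw [Real.norm_eq_abs]
  exact pow_le_pow_left₀ (abs_nonneg _) (hcon i).le 2

lemma pf_integrable {d : ℕ} (b : Fin d → ℝ) (ψ : Fin d → ℝ → ℝ) (hψ : ∀ i, Continuous (ψ i))
    (h0 : ∀ i y, b i ≤ |y| → ψ i y = 0) : Integrable (pf ψ) := by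
  apply (pf_cont ψ hψ).integrable_of_hasCompactSupport
  apply pf_supp b
  rintro x ⟨i, hi⟩
  exact Finset.prod_eq_zero (Finset.mem_univ i) (h0 i _ hi)

end P2

open P2 in
theorem taskP2 : TaskP2 := by
  classical
  intro d b e φ hb hφ hsup hpos hle
  have hc : ∀ i, Continuous (φ i) := fun i => (hφ i).continuous
  have hdc : ∀ i, Continuous (deriv (φ i)) := fun i => (hφ i).continuous_deriv le_rfl
  have hdiff : ∀ i y, HasDerivAt (φ i) (deriv (φ i) y) y := fun i y =>
    ((hφ i).differentiable (by norm_num) y).hasDerivAt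
  -- the gradient
  let Gr : E d → E d := fun x => WithLp.toLp 2
    (fun k => (∏ j ∈ Finset.univ.erase k, φ j (x j)) * deriv (φ k) (x k))
  have hGr : ∀ x k, (Gr x) k = (∏ j ∈ Finset.univ.erase k, φ j (x j)) * deriv (φ k) (x k) :=
    fun x k => rfl
  have hgrad : ∀ x : E d, gradient (pf φ) x = Gr x := by
    intro x
    apply HasGradientAt.gradient
    rw [hasGradientAt_iff_hasFDerivAt]
    have h1 : ∀ i ∈ (Finset.univ : Finset (Fin d)),
        HasFDerivAt (fun x : E d => φ i (x i))
          ((deriv (φ i) (x i)) • (EuclideanSpace.proj i : E d →L[ℝ] ℝ)) x := by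
      intro i _
      exact (hdiff i (x i)).comp_hasFDerivAt x (EuclideanSpace.proj (𝕜 := ℝ) i).hasFDerivAt
    have h2 := HasFDerivAt.finsetProd h1
    have h3 : (∑ i, (∏ j ∈ Finset.univ.erase i, φ j (x j)) •
        ((deriv (φ i) (x i)) • (EuclideanSpace.proj i : E d →L[ℝ] ℝ))) =
        (InnerProductSpace.toDual ℝ (E d)) (Gr x) := by
      ext z
      rw [InnerProductSpace.toDual_apply_apply, PiLp.inner_apply]
      simp only [FunLike.coe_sum, Finset.sum_apply, FunLike.coe_smul,
        Pi.smul_apply, smul_eq_mul]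
      apply Finset.sum_congr rfl
      intro i _
      have hpr : (EuclideanSpace.proj i : E d →L[ℝ] ℝ) z = z i := rfl
      rw [hGr, hpr]
      simp only [RCLike.inner_apply, conj_trivial]
      ring
    rw [h3] at h2
    exact h2
  have hz : ∀ x : E d, (∃ i, b i ≤ |x i|) → pf φ x = 0 ∧ gradient (pf φ) x = 0 := by
    rintro x ⟨i, hi⟩
    refine ⟨Finset.prod_eq_zero (Finset.mem_univ i) (hsup i _ hi).1, ?_⟩
    rw [hgrad]
    ext k
    rw [hGr]
    show _ = (0 : ℝ)
    by_cases hk : k = i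
    · subst hk
      rw [(hsup k _ hi).2, mul_zero]
    · rw [Finset.prod_eq_zero (Finset.mem_erase.2 ⟨fun h => hk h.symm, Finset.mem_univ i⟩)
        (hsup i _ hi).1, zero_mul]
  have hsq : ∫ x : E d, pf φ x ^ 2 = ∏ i, ∫ y, φ i y ^ 2 := by
    rw [← pf_int]
    congr 1
    funext x
    unfold pf
    rw [Finset.prod_pow]
  refine ⟨pf φ, ?_, pf_supp b _ (fun x hx => (hz x hx).1), hz, ?_, ?_⟩
  · unfold pf
    apply contDiff_prod
    intro i _
    exact (hφ i).comp (by fun_prop)
  · rw [hsq]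
    exact Finset.prod_pos fun i _ => hpos i
  · -- the Dirichlet integral
    let ψ : Fin d → Fin d → ℝ → ℝ := fun k j y => if j = k then deriv (φ j) y ^ 2 else φ j y ^ 2
    have hψc : ∀ k j, Continuous (ψ k j) := by
      intro k j
      by_cases h : j = k
      · simp only [ψ, h, if_true]
        exact (hdc k).pow 2
      · simp only [ψ, h, if_false]
        exact (hc j).pow 2
    have hψ0 : ∀ k j y, b j ≤ |y| → ψ k j y = 0 := by
      intro k j y hy
      by_cases h : j = k
      · simp only [ψ, h, if_true]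
        rw [← h, (hsup j y hy).2]; norm_num
      · simp only [ψ, h, if_false]
        rw [(hsup j y hy).1]; norm_num
    have hnorm : ∀ x : E d, ‖gradient (pf φ) x‖ ^ 2 = ∑ k, pf (ψ k) x := by
      intro x
      rw [hgrad, EuclideanSpace.norm_sq_eq]
      apply Finset.sum_congr rfl
      intro k _
      rw [hGr, Real.norm_eq_abs, sq_abs, mul_pow, ← Finset.prod_pow]
      unfold pf
      rw [← Finset.prod_erase_mul _ _ (Finset.mem_univ k)]
      congr 1
      · apply Finset.prod_congr rfl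
        intro j hj
        have : j ≠ k := (Finset.mem_erase.1 hj).1
        simp only [ψ, this, if_false]
      · simp only [ψ, if_true]
    have hint : ∫ x : E d, ‖gradient (pf φ) x‖ ^ 2 = ∑ k, ∏ j, ∫ y, ψ k j y := by
      have h1 : ∫ x : E d, ‖gradient (pf φ) x‖ ^ 2 = ∫ x : E d, ∑ k, pf (ψ k) x := by
        congr 1
        funext x
        exact hnorm x
      rw [h1, integral_finsetSum _ (fun k _ => pf_integrable b (ψ k) (hψc k) (hψ0 k))]
      exact Finset.sum_congr rfl fun k _ => pf_int (ψ k)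
    rw [hint, hsq, Finset.sum_mul]
    apply Finset.sum_le_sum
    intro k _
    rw [← Finset.prod_erase_mul _ _ (Finset.mem_univ k),
      ← Finset.prod_erase_mul _ (fun i => ∫ y, φ i y ^ 2) (Finset.mem_univ k)]
    have h2 : ∏ j ∈ Finset.univ.erase k, ∫ y, ψ k j y =
        ∏ j ∈ Finset.univ.erase k, ∫ y, φ j y ^ 2 := by
      apply Finset.prod_congr rfl
      intro j hj
      have : j ≠ k := (Finset.mem_erase.1 hj).1
      simp only [ψ, this, if_false]
    have h3 : ∫ y, ψ k k y = ∫ y, deriv (φ k) y ^ 2 := by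
      simp only [ψ, if_true]
    rw [h2, h3]
    have h4 : 0 ≤ ∏ j ∈ Finset.univ.erase k, ∫ y, φ j y ^ 2 :=
      Finset.prod_nonneg fun j _ => (hpos j).le
    calc (∏ j ∈ Finset.univ.erase k, ∫ y, φ j y ^ 2) * ∫ y, deriv (φ k) y ^ 2
        ≤ (∏ j ∈ Finset.univ.erase k, ∫ y, φ j y ^ 2) * (e k * ∫ y, φ k y ^ 2) :=
          mul_le_mul_of_nonneg_left (hle k) h4
      _ = e k * ((∏ j ∈ Finset.univ.erase k, ∫ y, φ j y ^ 2) * ∫ y, φ k y ^ 2) := by ring

end Pool.Agent.H624R4
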